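import Pool.Agent.HF.Stmts

/-!
# Squad HF, module CMP: components of the tensor square
-/

namespace Pool.Agent.HF.H84

open Pool.Agent.Glue Pool.Agent.FB Pool.Agent.CD Pool.Agent.HF
open scoped TensorProduct

noncomputable section

theorem f2_cases (c : F2) : c = 0 ∨ c = 1 := by
  revert c
  decide

section bn

variable {D : Type} [DivisionRing D] [Algebra F2 D]

theorem bn_fin (X Y : HahnSeries ℤ D) (n : ℤ) :
    (Function.support fun p : ℤ => X.coeff p ⊗ₜ[F2] Y.coeff (n - p)).Finite := by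
  refine ((Finset.antidiagonal X.isPWO_support Y.isPWO_support n).finite_toSet.image
    Prod.fst).subset ?_
  intro p hp
  rw [Function.mem_support] at hp
  refine ⟨(p, n - p), ?_, rfl⟩
  rw [Finset.mem_coe, Finset.mem_antidiagonal]
  refine ⟨fun h => hp ?_, fun h => hp ?_, by simp⟩
  · rw [h, TensorProduct.zero_tmul]
  · have h' : Y.coeff (n - p) = 0 := h
    rw [h', TensorProduct.tmul_zero]

theorem bn_add_left (X X' Y : HahnSeries ℤ D) (n : ℤ) :
    Bn (X + X') Y n = Bn X Y n + Bn X' Y n := by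
  unfold Bn
  rw [← finsum_add_distrib (bn_fin X Y n) (bn_fin X' Y n)]
  refine finsum_congr fun p => ?_
  rw [HahnSeries.coeff_add, TensorProduct.add_tmul]

theorem bn_add_right (X Y Y' : HahnSeries ℤ D) (n : ℤ) :
    Bn X (Y + Y') n = Bn X Y n + Bn X Y' n := by
  unfold Bn
  rw [← finsum_add_distrib (bn_fin X Y n) (bn_fin X Y' n)]
  refine finsum_congr fun p => ?_
  rw [HahnSeries.coeff_add, TensorProduct.tmul_add]

theorem bn_zero_left (Y : HahnSeries ℤ D) (n : ℤ) : Bn (0 : HahnSeries ℤ D) Y n = 0 := by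
  unfold Bn
  rw [finsum_eq_zero_of_forall_eq_zero]
  intro p
  rw [HahnSeries.coeff_zero, TensorProduct.zero_tmul]

theorem bn_zero_right (X : HahnSeries ℤ D) (n : ℤ) : Bn X (0 : HahnSeries ℤ D) n = 0 := by
  unfold Bn
  rw [finsum_eq_zero_of_forall_eq_zero]
  intro p
  rw [HahnSeries.coeff_zero, TensorProduct.tmul_zero]

/-- The bilinear map `Bn` composed with additive maps. -/
def bnl (φ ψ : D →+ HahnSeries ℤ D) (n : ℤ) : D ⊗[F2] D →ₗ[F2] D ⊗[F2] D :=
  TensorProduct.lift (LinearMap.mk₂ F2 (fun x y => Bn (φ x) (ψ y) n)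
    (fun x x' y => by rw [map_add, bn_add_left])
    (fun c x y => by
      rcases f2_cases c with rfl | rfl
      · rw [zero_smul, zero_smul, map_zero, bn_zero_left]
      · rw [one_smul, one_smul])
    (fun x y y' => by rw [map_add, bn_add_right])
    (fun c x y => by
      rcases f2_cases c with rfl | rfl
      · rw [zero_smul, zero_smul, map_zero, bn_zero_right]
      · rw [one_smul, one_smul]))

theorem bnl_tmul (φ ψ : D →+ HahnSeries ℤ D) (n : ℤ) (x y : D) :
    bnl φ ψ n (x ⊗ₜ[F2] y) = Bn (φ x) (ψ y) n := rfl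

end bn

section shift

variable {G : Type} [Group G] {D : Type} [DivisionRing D] {sg : G →* D} {L : Subgroup G}

theorem c_one (E : Ell sg L) : E.c 1 = 0 := by
  have h := E.c_mul 1 L.one_mem 1 L.one_mem
  rw [mul_one] at h
  linarith

theorem c_inv (E : Ell sg L) {l : G} (hl : l ∈ L) : E.c l⁻¹ = - E.c l := by
  have h := E.c_mul l hl l⁻¹ (L.inv_mem hl)
  rw [mul_inv_cancel, c_one] at h
  linarith

theorem sg_mem {l : G} (hl : l ∈ L) : sg l ∈ DS sg (L : Set G) :=
  Subfield.subset_closure ⟨l, hl, rfl⟩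

theorem coeff_mul_sg (E : Ell sg L) {u : D} (hu : u ∈ DS sg (L : Set G)) {l : G} (hl : l ∈ L)
    (p : ℤ) : (E.L (u * sg l)).coeff (p + E.c l) = (E.L u).coeff p * sg l := by
  rw [E.L_mul u hu _ (sg_mem hl), E.L_sg l hl, HahnSeries.coeff_mul_single_add]

theorem coeff_sg_mul (E : Ell sg L) {v : D} (hv : v ∈ DS sg (L : Set G)) {l : G} (hl : l ∈ L)
    (p : ℤ) : (E.L (sg l * v)).coeff (p + E.c l) = sg l * (E.L v).coeff p := by
  rw [E.L_mul _ (sg_mem hl) v hv, E.L_sg l hl, HahnSeries.coeff_single_mul_add]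

variable [Algebra F2 D]

theorem rq_tmul (g : G) (x y : D) : rq sg g (x ⊗ₜ[F2] y) = (x * sg g⁻¹) ⊗ₜ[F2] (sg g * y) := rfl

theorem bn_shift (E : Ell sg L) {u v : D} (hu : u ∈ DS sg (L : Set G))
    (hv : v ∈ DS sg (L : Set G)) {l : G} (hl : l ∈ L) (n : ℤ) :
    Bn (E.L (u * sg l)) (E.L (sg l⁻¹ * v)) n = rq sg l⁻¹ (Bn (E.L u) (E.L v) n) := by
  unfold Bn
  have h1 : rq sg l⁻¹ (∑ᶠ p : ℤ, (E.L u).coeff p ⊗ₜ[F2] (E.L v).coeff (n - p)) =
      ∑ᶠ p : ℤ, rq sg l⁻¹ ((E.L u).coeff p ⊗ₜ[F2] (E.L v).coeff (n - p)) :=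
    (rq sg l⁻¹).toAddMonoidHom.map_finsum (bn_fin (E.L u) (E.L v) n)
  rw [h1, ← finsum_comp_equiv (Equiv.addRight (E.c l))]
  refine finsum_congr fun p => ?_
  rw [Equiv.coe_addRight, coeff_mul_sg E hu hl, rq_tmul, inv_inv]
  have h2 : n - (p + E.c l) = (n - p) + E.c l⁻¹ := by
    rw [c_inv E hl]
    ring
  rw [h2, coeff_sg_mul E hv (L.inv_mem hl)]

end shift

section sep

variable {G : Type} [Group G] {D : Type} [DivisionRing D] [Algebra F2 D]

/-- The skew field generated by a subgroup, as a subspace. -/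
def WS (sg : G →* D) (L : Subgroup G) : Submodule F2 D :=
  AddSubgroup.toZModSubmodule 2 (DS sg (L : Set G)).toSubring.toAddSubgroup

theorem mem_WS (sg : G →* D) (L : Subgroup G) (x : D) :
    x ∈ WS sg L ↔ x ∈ DS sg (L : Set G) := Iff.rfl

/-- Families of elements of the skew field generated by `L`, indexed by the cosets. -/
def XS (sg : G →* D) (L : Subgroup G) :
    Submodule F2 ((Quotient (QuotientGroup.rightRel L)) →₀ D) where
  carrier := {f | ∀ q, f q ∈ WS sg L}
  add_mem' := fun {f g} hf hg q => by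
    rw [Finsupp.add_apply]
    exact Submodule.add_mem _ (hf q) (hg q)
  zero_mem' := fun q => by
    rw [Finsupp.zero_apply]
    exact Submodule.zero_mem _
  smul_mem' := fun c f hf q => by
    rw [Finsupp.smul_apply]
    exact Submodule.smul_mem _ c (hf q)

/-- The sum of the translates of the skew field generated by `L`. -/
def psi (sg : G →* D) (L : Subgroup G) : XS sg L →ₗ[F2] D :=
  (Finsupp.lsum F2 fun q : Quotient (QuotientGroup.rightRel L) =>
    (LinearMap.mulRight F2 (sg q.out) : D →ₗ[F2] D)).comp (XS sg L).subtype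

theorem single_mem (sg : G →* D) (L : Subgroup G) (q : Quotient (QuotientGroup.rightRel L))
    {w : D} (hw : w ∈ WS sg L) : Finsupp.single q w ∈ XS sg L := by
  intro q'
  classical
  rw [Finsupp.single_apply]
  split_ifs
  · exact hw
  · exact Submodule.zero_mem _

theorem psi_single (sg : G →* D) (L : Subgroup G) (q : Quotient (QuotientGroup.rightRel L))
    {w : D} (hw : w ∈ WS sg L) :
    psi sg L ⟨Finsupp.single q w, single_mem sg L q hw⟩ = w * sg q.out := by
  unfold psi
  rw [LinearMap.comp_apply, Submodule.subtype_apply, Finsupp.lsum_single]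
  rfl

theorem psi_inj (hsin : SinStmt) [CharP D 2] (sg : G →* D)
    (hE : ∀ H : Subgroup G, H ≠ ⊥ → Nonempty (Ell sg H)) (L : Subgroup G) :
    Function.Injective (psi sg L) := by
  rw [injective_iff_map_eq_zero]
  rintro ⟨f, hfm⟩ hf
  classical
  have e : Fin f.support.card ≃ f.support := f.support.equivFin.symm
  have key := hsin G D sg hE L f.support.card (fun i => f (e i))
    (fun i => (e i : Quotient (QuotientGroup.rightRel L)).out) (fun i => hfm (e i)) ?_ ?_
  · apply Subtype.ext
    ext q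
    by_cases hq : q ∈ f.support
    · have := key (e.symm ⟨q, hq⟩)
      simpa using this
    · rw [Finsupp.notMem_support_iff.1 hq]
      rfl
  · intro i j hij
    apply e.injective
    apply Subtype.ext
    have h3 : (QuotientGroup.rightRel L) (e j).1.out (e i).1.out :=
      (QuotientGroup.rightRel_apply).2 hij
    have h4 := Quotient.sound (s := QuotientGroup.rightRel L) h3
    rw [Quotient.out_eq, Quotient.out_eq] at h4
    exact h4.symm
  · have h2 : psi sg L ⟨f, hfm⟩ = ∑ q ∈ f.support, f q * sg q.out := by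
      unfold psi
      rw [LinearMap.comp_apply, Submodule.subtype_apply, Finsupp.lsum_apply, Finsupp.sum]
      rfl
    rw [h2] at hf
    rw [← hf, ← Finset.sum_coe_sort f.support (fun q => f q * sg q.out)]
    exact Fintype.sum_equiv e _ _ fun i => rfl

end sep

theorem cmp (hsin : SinStmt) (hell : EllStmt) : CmpStmt := by
  intro G _ h L E r a u v hu hv h0 n
  classical
  have hE : ∀ H : Subgroup G, H ≠ ⊥ → Nonempty (Ell h.sg H) := fun H hH =>
    hell G h.D h.sg H (h.chi H hH)
  have hker : LinearMap.ker (psi h.sg L) = ⊥ :=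
    LinearMap.ker_eq_bot_of_injective (psi_inj hsin h.sg hE L)
  obtain ⟨P, hP⟩ := LinearMap.exists_leftInverse_of_injective (psi h.sg L) hker
  obtain ⟨π, hπ⟩ := LinearMap.exists_leftInverse_of_injective (WS h.sg L).subtype
    (Submodule.ker_subtype _)
  have hπ' : ∀ x : WS h.sg L, π (x : h.D) = x := fun x => LinearMap.congr_fun hπ x
  let φ : h.D →+ HahnSeries ℤ h.D :=
    { toFun := fun x => E.L ((π x : WS h.sg L) : h.D)
      map_zero' := by
        have h1 := E.L_add 0 (Subfield.zero_mem _) 0 (Subfield.zero_mem _)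
        rw [add_zero] at h1
        rw [map_zero, Submodule.coe_zero]
        exact (left_eq_add.1 h1)
      map_add' := fun x y => by
        rw [map_add, Submodule.coe_add]
        exact E.L_add _ (π x).2 _ (π y).2 }
  have hφ : ∀ x ∈ DS h.sg (L : Set G), φ x = E.L x := fun x hx => by
    have h1 := hπ' ⟨x, hx⟩
    change E.L ((π x : WS h.sg L) : h.D) = E.L x
    rw [h1]
  let qm : Fin r → Quotient (QuotientGroup.rightRel L) := fun m => Quotient.mk _ (a m)
  let lm' : Fin r → G := fun m => a m * (qm m).out⁻¹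
  have hl : ∀ m, lm' m ∈ L := fun m => by
    have h1 : (QuotientGroup.rightRel L) (qm m).out (a m) := Quotient.mk_out (a m)
    exact (QuotientGroup.rightRel_apply).1 h1
  have hla : ∀ m, a m = lm' m * (qm m).out := fun m => by
    simp [lm']
  have hul : ∀ m, u m * h.sg (lm' m) ∈ WS h.sg L := fun m =>
    Subfield.mul_mem _ (hu m) (sg_mem (hl m))
  have hT : ∀ q, ∀ m, ((P (u m * h.sg (a m)) : XS h.sg L) :
      (Quotient (QuotientGroup.rightRel L)) →₀ h.D) q =
      if qm m = q then u m * h.sg (lm' m) else 0 := by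
    intro q m
    have h1 : u m * h.sg (a m) = psi h.sg L
        ⟨Finsupp.single (qm m) (u m * h.sg (lm' m)), single_mem h.sg L (qm m) (hul m)⟩ := by
      rw [psi_single h.sg L (qm m) (hul m), mul_assoc, ← map_mul, ← hla]
    have h2 := LinearMap.congr_fun hP
      ⟨Finsupp.single (qm m) (u m * h.sg (lm' m)), single_mem h.sg L (qm m) (hul m)⟩
    rw [LinearMap.comp_apply, LinearMap.id_apply] at h2
    rw [h1, h2, Finsupp.single_apply]
  have step : ∀ q, ∑ m with qm m = q, rq h.sg (a m)⁻¹ (Bn (E.L (u m)) (E.L (v m)) n) = 0 := by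
    intro q
    let T : h.D →ₗ[F2] h.D := (Finsupp.lapply q).comp ((XS h.sg L).subtype.comp P)
    have h1 := congrArg (fun z => rq h.sg q.out⁻¹ (bnl φ φ n
      (TensorProduct.map T (LinearMap.mulLeft F2 (h.sg q.out)) z))) h0
    simp only [map_sum, map_zero] at h1
    rw [Finset.sum_filter]
    refine Eq.trans (Finset.sum_congr rfl fun m _ => ?_) h1
    rw [TensorProduct.map_tmul, bnl_tmul]
    have h2 : T (u m * h.sg (a m)) = ((P (u m * h.sg (a m)) : XS h.sg L) :
      (Quotient (QuotientGroup.rightRel L)) →₀ h.D) q := rfl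
    rw [h2, hT q m]
    split_ifs with hq
    · have h3 : LinearMap.mulLeft F2 (h.sg q.out) (h.sg (a m)⁻¹ * v m) =
          h.sg (lm' m)⁻¹ * v m := by
        rw [LinearMap.mulLeft_apply, ← mul_assoc, ← map_mul]
        congr 2
        rw [hla m, hq]
        simp
      rw [h3, hφ _ (Subfield.mul_mem _ (hu m) (sg_mem (hl m))),
        hφ _ (Subfield.mul_mem _ (sg_mem (L.inv_mem (hl m))) (hv m)),
        bn_shift E (hu m) (hv m) (hl m) n, ← Module.End.mul_apply, ← map_mul, ← mul_inv_rev,
        ← hq, ← hla m]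
    · rw [map_zero, bn_zero_left, map_zero]
  rw [← Finset.sum_fiberwise_of_maps_to (s := Finset.univ) (t := Finset.univ.image qm) (g := qm)
    (fun m _ => Finset.mem_image_of_mem _ (Finset.mem_univ m))]
  exact Finset.sum_eq_zero fun q _ => step q

end

end Pool.Agent.HF.H84
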