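import Pool.Agent.HF.Stmts

/-!
# Squad HF, modules GE1 and CXM
-/

namespace Pool.Agent.HF.H84

open Pool.Agent.Glue Pool.Agent.FB Pool.Agent.CD Pool.Agent.HF

noncomputable section

theorem ell_c_one {G : Type} [Group G] {D : Type} [DivisionRing D] {sg : G →* D}
    {L : Subgroup G} (E : Ell sg L) : E.c 1 = 0 := by
  have h := E.c_mul 1 L.one_mem 1 L.one_mem
  rw [mul_one] at h
  linarith

theorem ell_L_zero {G : Type} [Group G] {D : Type} [DivisionRing D] {sg : G →* D}
    {L : Subgroup G} (E : Ell sg L) : E.L 0 = 0 := by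
  have h1 := E.L_add 0 (Subfield.zero_mem _) 0 (Subfield.zero_mem _)
  rw [add_zero] at h1
  exact left_eq_add.1 h1

/-- GE1 -/
theorem ge1 : Ge1Stmt := by
  intro K G D _ _ _ sg S hB
  have h01 : (0 : K.T) ≤ 1 := K.nonneg 1
  have hcx1 : cx K sg S 1 ≤ 1 := by
    have h := hB.le (Ex.of 1) S.one_mem
    change cx K sg S (sg 1) ≤ 1 at h
    rwa [map_one] at h
  refine ⟨fun g => ?_, ?_⟩
  · intro hg u hu H E hH
    have hnv : nv sg (Ex.of g) u = 1 := by
      change sg u * (sg g * sg g⁻¹) * sg u⁻¹ = 1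
      rw [← map_mul, mul_inv_cancel, map_one, mul_one, ← map_mul, mul_inv_cancel, map_one]
    rw [hnv, E.L_one]
    refine ⟨fun i => ?_, fun F => ?_, ?_⟩
    · rw [HahnSeries.coeff_one]
      split_ifs
      · exact Subfield.one_mem _
      · exact Subfield.zero_mem _
    · change _ ≤ (1 : K.T)
      by_cases h0 : (0 : ℤ) ∈ F
      · rw [Finset.sum_eq_single_of_mem 0 h0]
        · rw [HahnSeries.coeff_one, if_pos rfl]
          exact hcx1
        · intro b _ hb
          rw [HahnSeries.coeff_one, if_neg hb, hB.zero]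
      · rw [Finset.sum_eq_zero]
        · exact h01
        · intro b hb
          rw [HahnSeries.coeff_one, if_neg, hB.zero]
          rintro rfl
          exact h0 hb
    · rintro ⟨r, hr, hr'⟩
      exfalso
      have h1 : r = 1 := Subgroup.mem_bot.1 hr
      apply hr'
      rw [h1, mul_one, mul_inv_cancel, ell_c_one]
  · intro _ u hu H E hH
    have hnv : nv sg (Ex.zero : Ex G) u = 0 := by
      change sg u * (0 * sg (1 : G)⁻¹) * sg u⁻¹ = 0
      rw [zero_mul, mul_zero, zero_mul]
    rw [hnv, ell_L_zero]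
    refine ⟨fun i => ?_, fun F => ?_, ?_⟩
    · rw [HahnSeries.coeff_zero]
      exact Subfield.zero_mem _
    · change _ ≤ (1 : K.T)
      rw [Finset.sum_eq_zero]
      · exact h01
      · intro b _
        rw [HahnSeries.coeff_zero, hB.zero]
    · rintro ⟨r, hr, hr'⟩
      exfalso
      have h1 : r = 1 := Subgroup.mem_bot.1 hr
      apply hr'
      rw [h1, mul_one, mul_inv_cancel, ell_c_one]

/-- CXM -/
theorem cxm (hord : OrdStmt) (hsrc : SrcStmt) (hcxb : CxbStmt) (h1 : Ge1Stmt) (h2 : Ge2Stmt)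
    (h3 : Ge3Stmt) (h4 : Ge4Stmt) : CxStmt := by
  intro G D _ _ _ sg S
  obtain ⟨K⟩ := hord
  have hB : CxB K sg S := hcxb K G D sg S
  have hG : ∀ e : Ex G, GoodE K sg S e := by
    intro e
    induction e with
    | of g => exact (h1 K G D sg S hB).1 g
    | zero => exact (h1 K G D sg S hB).2
    | add a b ha hb => exact h2 K G D sg S hB a b ha hb
    | mul a b ha hb => exact h3 K G D sg S hB a b ha hb
    | inv a ha => exact h4 K G D sg S hB a ha
  refine ⟨{
    T := K.T
    csr := K.csr
    lin := K.lin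
    ord := K.ord
    wf := K.wf
    nonneg := K.nonneg
    cx := cx K sg S
    zero := hB.zero
    pos := fun x hx hx0 => ?_
    gmul := hB.gmul
    mulg := hB.mulg
    ex := fun x hx hx0 => ?_ }⟩
  · obtain ⟨e, _, _, he3⟩ := hB.ex x hx hx0
    rw [← he3]
    exact lt_of_lt_of_le (zero_lt_one (α := K.T)) (hB.one_le e)
  · obtain ⟨e, he1, he2, he3⟩ := hB.ex x hx hx0
    obtain ⟨s1, s2, s3, s4⟩ := hsrc G D sg S e he1
    refine ⟨e.src, e.tr, s1, s2, ?_, fun hbot => ?_, fun u hu H E hH => ?_⟩
    · rw [← he2]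
      exact s3
    · rcases s4 hbot with h | h
      · exact absurd (he2.symm.trans h) hx0
      · exact he2.symm.trans h
    · have h5 := hG e he1 u hu H E hH
      unfold nv at h5
      rw [he2, he3] at h5
      exact h5

end

end Pool.Agent.HF.H84
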