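import Pool.Agent.Helper84_HF.Cmp

/-!
# Squad HF, module TC: clearing denominators
-/

namespace Pool.Agent.HF.H84

open Pool.Agent.Glue Pool.Agent.FB Pool.Agent.CD Pool.Agent.HF
open scoped TensorProduct

noncomputable section

section outer

variable {G : Type} [Group G] {D : Type} [DivisionRing D] [Algebra F2 D]

/-- The outer multiplications on the tensor square. -/
def out2 (p q : D) : D ⊗[F2] D →ₗ[F2] D ⊗[F2] D :=
  TensorProduct.map (LinearMap.mulLeft F2 p) (LinearMap.mulRight F2 q)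

theorem out2_tmul (p q x y : D) : out2 p q (x ⊗ₜ[F2] y) = (p * x) ⊗ₜ[F2] (y * q) := rfl

theorem out2_rq (sg : G →* D) (p q : D) (g : G) (z : D ⊗[F2] D) :
    out2 p q (rq sg g z) = rq sg g (out2 p q z) := by
  induction z using TensorProduct.induction_on with
  | zero => rw [map_zero, map_zero, map_zero]
  | tmul x y => rw [rq_tmul, out2_tmul, out2_tmul, rq_tmul, mul_assoc, mul_assoc]
  | add x y hx hy => rw [map_add, map_add, hx, hy, map_add, map_add]

theorem out2_inv {p q : D} (hp : p ≠ 0) (hq : q ≠ 0) (z : D ⊗[F2] D) :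
    out2 p⁻¹ q⁻¹ (out2 p q z) = z := by
  induction z using TensorProduct.induction_on with
  | zero => rw [map_zero, map_zero]
  | tmul x y =>
    rw [out2_tmul, out2_tmul, ← mul_assoc, inv_mul_cancel₀ hp, one_mul, mul_assoc,
      mul_inv_cancel₀ hq, mul_one]
  | add x y hx hy => rw [map_add, map_add, hx, hy]

theorem part_out2 {I : Type} [Fintype I] (C : Cells G I) (sg : G →* D) (p q : D)
    (y : I → (D ⊗[F2] D)) :
    part C (rq sg) ((out2 p q).compLeft I y) = (out2 p q).compLeft I (part C (rq sg) y) := by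
  funext j
  change ∑ i, (C.bd i j).coeff.sum (fun h c => (c : F2) • rq sg h⁻¹ (out2 p q (y i))) =
    out2 p q (∑ i, (C.bd i j).coeff.sum (fun h c => (c : F2) • rq sg h⁻¹ (y i)))
  rw [map_sum]
  refine Finset.sum_congr rfl fun i _ => ?_
  rw [Finsupp.sum, Finsupp.sum, map_sum]
  refine Finset.sum_congr rfl fun h _ => ?_
  rw [map_smul, out2_rq]

theorem compLeft_single {I : Type} [DecidableEq I] (p q : D) (i : I) (z : D ⊗[F2] D) :
    (out2 p q).compLeft I (Pi.single i z) = Pi.single i (out2 p q z) := by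
  funext j
  rw [LinearMap.compLeft_apply]
  by_cases hj : j = i
  · subst hj
    simp
  · simp [hj]

/-- The boundaries of chains of degree `l + 1`. -/
def BB {I : Type} [Fintype I] (C : Cells G I) (sg : G →* D) (l : ℕ) :
    AddSubmonoid (I → (D ⊗[F2] D)) where
  carrier := {z | ∃ y : I → (D ⊗[F2] D), (∀ j, C.deg j ≠ l + 1 → y j = 0) ∧
    part C (rq sg) y = z}
  zero_mem' := ⟨0, fun j _ => rfl, map_zero _⟩
  add_mem' := by
    rintro z z' ⟨y, hy, rfl⟩ ⟨y', hy', rfl⟩
    refine ⟨y + y', fun j hj => ?_, map_add _ _ _⟩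
    rw [Pi.add_apply, hy j hj, hy' j hj, add_zero]

theorem BB_out2 {I : Type} [Fintype I] (C : Cells G I) (sg : G →* D) (l : ℕ) (p q : D)
    {z : I → (D ⊗[F2] D)} (hz : z ∈ BB C sg l) : (out2 p q).compLeft I z ∈ BB C sg l := by
  obtain ⟨y, hy, rfl⟩ := hz
  refine ⟨(out2 p q).compLeft I y, fun j hj => ?_, part_out2 C sg p q y⟩
  rw [LinearMap.compLeft_apply, Function.comp_apply, hy j hj, map_zero]

end outer

section series

variable {D : Type} [DivisionRing D] [Algebra F2 D]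

omit [Algebra F2 D] in
theorem hs_sum (X : HahnSeries ℤ D) (F : Finset ℤ) (hF : X.support ⊆ F) :
    X = ∑ i ∈ F, HahnSeries.single i (X.coeff i) := by
  ext n
  rw [HahnSeries.coeff_sum]
  by_cases hn : n ∈ F
  · rw [Finset.sum_eq_single_of_mem n hn, HahnSeries.coeff_single_same]
    intro b _ hb
    rw [HahnSeries.coeff_single_of_ne (Ne.symm hb)]
  · rw [Finset.sum_eq_zero]
    · by_contra h
      exact hn (hF h)
    · intro b hb
      rw [HahnSeries.coeff_single_of_ne]
      rintro rfl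
      exact hn hb

theorem bn_sum_left {ι : Type} (F : Finset ι) (f : ι → HahnSeries ℤ D) (Y : HahnSeries ℤ D)
    (n : ℤ) : Bn (∑ i ∈ F, f i) Y n = ∑ i ∈ F, Bn (f i) Y n := by
  classical
  induction F using Finset.induction_on with
  | empty => rw [Finset.sum_empty, Finset.sum_empty, bn_zero_left]
  | insert a s ha ih => rw [Finset.sum_insert ha, Finset.sum_insert ha, bn_add_left, ih]

theorem bn_sum_right {ι : Type} (F : Finset ι) (f : ι → HahnSeries ℤ D) (X : HahnSeries ℤ D)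
    (n : ℤ) : Bn X (∑ i ∈ F, f i) n = ∑ i ∈ F, Bn X (f i) n := by
  classical
  induction F using Finset.induction_on with
  | empty => rw [Finset.sum_empty, Finset.sum_empty, bn_zero_right]
  | insert a s ha ih => rw [Finset.sum_insert ha, Finset.sum_insert ha, bn_add_right, ih]

theorem bn_single (x y : D) (i k : ℤ) (U V : HahnSeries ℤ D) (N : ℤ) :
    Bn (HahnSeries.single i x * U) (V * HahnSeries.single k y) N =
      out2 x y (Bn U V (N - i - k)) := by
  unfold Bn
  have h1 : out2 x y (∑ᶠ p : ℤ, U.coeff p ⊗ₜ[F2] V.coeff (N - i - k - p)) =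
      ∑ᶠ p : ℤ, out2 x y (U.coeff p ⊗ₜ[F2] V.coeff (N - i - k - p)) :=
    (out2 x y).toAddMonoidHom.map_finsum (bn_fin U V (N - i - k))
  rw [h1, ← finsum_comp_equiv (Equiv.addRight i)]
  refine finsum_congr fun p => ?_
  rw [Equiv.coe_addRight, HahnSeries.coeff_single_mul_add, out2_tmul]
  have h2 : N - (p + i) = (N - i - k - p) + k := by ring
  rw [h2, HahnSeries.coeff_mul_single_add]

theorem bn_expand (P U V Q : HahnSeries ℤ D) (F K : Finset ℤ) (hF : P.support ⊆ F)
    (hK : Q.support ⊆ K) (N : ℤ) :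
    Bn (P * U) (V * Q) N =
      ∑ i ∈ F, ∑ k ∈ K, out2 (P.coeff i) (Q.coeff k) (Bn U V (N - i - k)) := by
  conv_lhs => rw [hs_sum P F hF, hs_sum Q K hK, Finset.sum_mul, Finset.mul_sum, bn_sum_left]
  refine Finset.sum_congr rfl fun i _ => ?_
  rw [bn_sum_right]
  exact Finset.sum_congr rfl fun k _ => bn_single _ _ _ _ _ _ _

theorem bn_total (X Y : HahnSeries ℤ D) (F K S : Finset ℤ) (hF : X.support ⊆ F)
    (hK : Y.support ⊆ K) (hS : ∀ i ∈ F, ∀ k ∈ K, i + k ∈ S) :
    ∑ N ∈ S, Bn X Y N = (∑ i ∈ F, X.coeff i) ⊗ₜ[F2] (∑ k ∈ K, Y.coeff k) := by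
  have h1 : ∀ N, Bn X Y N = ∑ i ∈ F, X.coeff i ⊗ₜ[F2] Y.coeff (N - i) := by
    intro N
    unfold Bn
    refine finsum_eq_sum_of_support_subset _ fun i hi => hF ?_
    intro h
    apply hi
    have h' : X.coeff i = 0 := h
    change X.coeff i ⊗ₜ[F2] Y.coeff (N - i) = 0
    rw [h', TensorProduct.zero_tmul]
  simp_rw [h1]
  rw [Finset.sum_comm, TensorProduct.sum_tmul]
  refine Finset.sum_congr rfl fun i hi => ?_
  rw [← TensorProduct.tmul_sum]
  congr 1
  have h2 : ∑ k ∈ K, Y.coeff k = ∑ N ∈ K.map (Equiv.addLeft i).toEmbedding, Y.coeff (N - i) := by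
    rw [Finset.sum_map]
    refine Finset.sum_congr rfl fun k _ => ?_
    simp
  rw [h2]
  symm
  refine Finset.sum_subset ?_ ?_
  · intro N hN
    rw [Finset.mem_map] at hN
    obtain ⟨k, hk, rfl⟩ := hN
    exact hS i hi k hk
  · intro N _ hN
    by_contra h
    apply hN
    rw [Finset.mem_map]
    refine ⟨N - i, hK h, ?_⟩
    simp

omit [Algebra F2 D] in
theorem pl_sum {L : D → HahnSeries ℤ D} {x : D} (hx : Pl L x) (F : Finset ℤ)
    (hF : (L x).support ⊆ F) : x = ∑ i ∈ F, (L x).coeff i := by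
  have h1 := hx.2
  conv_lhs => rw [h1]
  exact finsum_eq_sum_of_support_subset _ hF

end series

theorem tc : TcStmt := by
  intro G _ h L E I _ _ C l r i a u v hu hv hn
  classical
  obtain ⟨p, hpm, hp0, hpP, hpu⟩ := E.left r u hu
  obtain ⟨q, hqm, hq0, hqP, hqv⟩ := E.right r v hv
  have hB : ∀ n, ztn h E i a u v n ∈ BB C h.sg l := fun n => by
    obtain ⟨y, hy, hyz⟩ := hn n
    exact ⟨y, hy, hyz⟩
  let F : Finset ℤ := hpP.1.toFinset
  let K : Finset ℤ := hqP.1.toFinset
  have hF : (E.L p).support ⊆ F := fun x hx => by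
    rw [Finset.mem_coe, Set.Finite.mem_toFinset]
    exact hx
  have hK : (E.L q).support ⊆ K := fun x hx => by
    rw [Finset.mem_coe, Set.Finite.mem_toFinset]
    exact hx
  let Fm : Fin r → Finset ℤ := fun m => (hpu m).1.toFinset
  let Km : Fin r → Finset ℤ := fun m => (hqv m).1.toFinset
  have hFm : ∀ m, (E.L (p * u m)).support ⊆ Fm m := fun m x hx => by
    rw [Finset.mem_coe, Set.Finite.mem_toFinset]
    exact hx
  have hKm : ∀ m, (E.L (v m * q)).support ⊆ Km m := fun m x hx => by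
    rw [Finset.mem_coe, Set.Finite.mem_toFinset]
    exact hx
  let S : Finset ℤ := Finset.univ.biUnion fun m =>
    (Fm m ×ˢ Km m).image fun x => x.1 + x.2
  have hS : ∀ m, ∀ x ∈ Fm m, ∀ k ∈ Km m, x + k ∈ S := fun m x hx k hk => by
    rw [Finset.mem_biUnion]
    refine ⟨m, Finset.mem_univ m, ?_⟩
    rw [Finset.mem_image]
    exact ⟨(x, k), Finset.mem_product.2 ⟨hx, hk⟩, rfl⟩
  have key : (out2 p q).compLeft I (zt h i a u v) = ∑ N ∈ S, ∑ x ∈ F, ∑ k ∈ K,
      (out2 ((E.L p).coeff x) ((E.L q).coeff k)).compLeft I (ztn h E i a u v (N - x - k)) := by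
    unfold zt ztn
    simp only [map_sum, compLeft_single]
    have h1 : ∀ m : Fin r, out2 p q ((u m * h.sg (a m)) ⊗ₜ[F2] (h.sg (a m)⁻¹ * v m)) =
        ∑ N ∈ S, ∑ x ∈ F, ∑ k ∈ K, out2 ((E.L p).coeff x) ((E.L q).coeff k)
          (rq h.sg (a m)⁻¹ (Bn (E.L (u m)) (E.L (v m)) (N - x - k))) := by
      intro m
      have h2 : out2 p q ((u m * h.sg (a m)) ⊗ₜ[F2] (h.sg (a m)⁻¹ * v m)) =
          rq h.sg (a m)⁻¹ ((p * u m) ⊗ₜ[F2] (v m * q)) := by
        rw [out2_tmul, rq_tmul, inv_inv, mul_assoc, mul_assoc]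
      have h3 : (p * u m) ⊗ₜ[F2] (v m * q) =
          ∑ N ∈ S, Bn (E.L (p * u m)) (E.L (v m * q)) N := by
        rw [bn_total _ _ (Fm m) (Km m) S (hFm m) (hKm m) (hS m), ← pl_sum (hpu m) _ (hFm m),
          ← pl_sum (hqv m) _ (hKm m)]
      rw [h2, h3, map_sum]
      refine Finset.sum_congr rfl fun N _ => ?_
      rw [E.L_mul p hpm (u m) (hu m), E.L_mul (v m) (hv m) q hqm,
        bn_expand _ _ _ _ F K hF hK N, map_sum]
      refine Finset.sum_congr rfl fun x _ => ?_
      rw [map_sum]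
      refine Finset.sum_congr rfl fun k _ => ?_
      rw [out2_rq]
    have h4 : ∀ (m : Fin r), (Pi.single (i m) (out2 p q
        ((u m * h.sg (a m)) ⊗ₜ[F2] (h.sg (a m)⁻¹ * v m))) : I → (h.D ⊗[F2] h.D)) =
        ∑ N ∈ S, ∑ x ∈ F, ∑ k ∈ K, Pi.single (i m)
          (out2 ((E.L p).coeff x) ((E.L q).coeff k)
          (rq h.sg (a m)⁻¹ (Bn (E.L (u m)) (E.L (v m)) (N - x - k)))) := by
      intro m
      rw [h1 m]
      have h6 : ∀ z, (AddMonoidHom.single (fun _ : I => (h.D ⊗[F2] h.D)) (i m)) z =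
        Pi.single (i m) z := fun z => rfl
      simp only [← h6, map_sum]
    simp only [h4]
    rw [Finset.sum_comm]
    refine Finset.sum_congr rfl fun N _ => ?_
    rw [Finset.sum_comm]
    refine Finset.sum_congr rfl fun x _ => ?_
    rw [Finset.sum_comm]
  have h7 : (out2 p q).compLeft I (zt h i a u v) ∈ BB C h.sg l := by
    rw [key]
    exact AddSubmonoid.sum_mem _ fun N _ => AddSubmonoid.sum_mem _ fun x _ =>
      AddSubmonoid.sum_mem _ fun k _ => BB_out2 C h.sg l _ _ (hB _)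
  have h8 := BB_out2 C h.sg l p⁻¹ q⁻¹ h7
  have h9 : (out2 p⁻¹ q⁻¹).compLeft I ((out2 p q).compLeft I (zt h i a u v)) =
      zt h i a u v := by
    funext j
    rw [LinearMap.compLeft_apply, Function.comp_apply, LinearMap.compLeft_apply,
      Function.comp_apply, out2_inv hp0 hq0]
  rw [h9] at h8
  exact h8

end

end Pool.Agent.HF.H84
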